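import Pool.Agent.Helper30_SkewP4.Final
import Pool.Agent.Helper11_Skew.R2
import Pool.Agent.Helper11_Skew.Tze
import Pool.Agent.Helper15_Skew.Gg
import Pool.Agent.Helper15_Skew.Lsup
import Pool.Agent.Helper18_Skew.Psi
import Pool.Agent.Helper21_Skew.Jt
import Pool.Agent.Helper21_Skew.Tmul
import Pool.Agent.Helper33_Skew.Ext1
import Pool.Agent.Helper33_Skew.Ext2
import Pool.Agent.Helper41_Skew.Tcl
import Pool.Agent.Helper42_Skew.E23
import Pool.Agent.Helper46_Skew.Gex
import Pool.Agent.Helper46_Skew.Tz0
import Pool.Agent.Helper47_Skew.Rk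
import Pool.Agent.Helper47_Skew.Model
import Pool.Agent.Helper48_Skew.Del
import Pool.Agent.Helper48_Skew.Frd
import Pool.Agent.Helper51_Skew.Jop
import Pool.Agent.Helper51_Skew.Tko
import Pool.Agent.Helper53_Skew.Small
import Pool.Agent.Helper54_Skew.Basic
import Pool.Agent.Helper59_Skew.Qex
import Pool.Agent.Helper68_Skew.Anti
import Pool.Agent.Helper68_Skew.Contra
import Pool.Agent.Helper75_Skew.Iso
import Pool.Agent.Helper75_Skew.Tan
import Pool.Agent.Helper81_Skew.Pie
import Pool.Agent.Helper85_Skew.Blk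
import Pool.Agent.Helper85_Skew.Lam
import Pool.Agent.Helper91_Skew.Opr

/-!
# Wiring of the modules of the proof of `S00462`
-/

set_option autoImplicit false

namespace Pool.Agent.SkewP4.Asm

theorem poly : PolyStmt := H75.poly (H59.qex H85.blk) H59.trq (H75.iso H75.tan) H81.pie

theorem lam : LamStmt := H85.lam H75.eta

theorem scal : ScalStmt := H54.scal H54.basic
theorem psi : PsiStmt := H18.psi H54.basic scal
theorem r1 : R1Stmt := H18.r1' H54.basic scal
theorem r2 : R2Stmt := H11.r2 H54.basic scal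
theorem tr : TrStmt := H11.tr H54.basic scal psi r1 r2
theorem rk : RkStmt := H47.rk H54.basic
theorem anti : AntiStmt := H68.anti H54.basic rk
theorem del : DelStmt := H48.del H54.basic scal

theorem contra : ContraStmt :=
  H68.contra H54.basic scal psi tr rk anti del H42.e1 H42.e2 H42.e3

theorem ext1 : Ext1Stmt := H33.ext1
theorem ext2 : Ext2Stmt := H33.ext2 ext1
theorem opr : OprStmt := H91.opr ext1
theorem opb : OpbStmt := H91.opb ext1 ext2
theorem tne : TneStmt := H53.tne H51.jop
theorem tkz : TkzStmt := H53.tkz H51.jop opr opb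
theorem tz0 : Tz0Stmt := H46.tz0 ext2
theorem tmul : TmulStmt := H21M.tmul ext1 ext2 opr opb
theorem lsup : LsupStmt := H15.lsup ext1
theorem tko : TkoStmt := H51.tko H51.jop opr opb
theorem tcl : TclStmt := H41.tcl tko tne opr opb
theorem tex : TexStmt := H41.tex tcl tne opr opb
theorem tze : TzeStmt := H11.tze tko opr opb
theorem gg : GgStmt := H15.gg H21.jt tmul opb
theorem gex : GexStmt := H46.gex tex H21.jt
theorem gze : GzeStmt := H11.gze tze H21.jt
theorem model : ModelStmt :=
  H47.model H48.frd lsup H21.jt gg gex gze tkz tz0 H53.tnu ext1 ext2 opr opb tne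

end Pool.Agent.SkewP4.Asm
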