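import Pool.Agent.Helper30_SkewP4.Defs

/-!
# Calculus of matrices over a super commutative algebra
-/

set_option autoImplicit false

open scoped Matrix

namespace Pool.Agent.SkewP4

variable {Λ : Type} [Ring Λ] [Algebra ℂ Λ] (M : Model Λ) {n : ℕ}

/-- even matrix -/
def Ev (X : Matrix (Fin n) (Fin n) Λ) : Prop := X.map M.s = X
/-- odd matrix -/
def Od (X : Matrix (Fin n) (Fin n) Λ) : Prop := X.map M.s = -X
/-- matrix with entries in `G p q` -/
def MG (p q : ℕ) (X : Matrix (Fin n) (Fin n) Λ) : Prop := ∀ a b, X a b ∈ M.G p q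

variable {M}
variable {X Y W : Matrix (Fin n) (Fin n) Λ} {c e : Λ}

theorem Ev.apply (h : Ev M X) (a b : Fin n) : M.s (X a b) = X a b := by
  have := congrFun (congrFun h a) b
  simpa using this

theorem Od.apply (h : Od M X) (a b : Fin n) : M.s (X a b) = -(X a b) := by
  have := congrFun (congrFun h a) b
  simpa using this

theorem Ev.of_apply (h : ∀ a b, M.s (X a b) = X a b) : Ev M X := by
  ext a b; simpa using h a b

theorem Od.of_apply (h : ∀ a b, M.s (X a b) = -(X a b)) : Od M X := by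
  ext a b; simpa using h a b

theorem map_s_mul (X Y : Matrix (Fin n) (Fin n) Λ) :
    (X * Y).map M.s = X.map M.s * Y.map M.s := by
  ext a b; simp [Matrix.mul_apply, map_sum, map_mul]

theorem ev_one : Ev M (1 : Matrix (Fin n) (Fin n) Λ) := by
  apply Ev.of_apply
  intro a b
  by_cases h : a = b
  · subst h; simp
  · simp [Matrix.one_apply_ne h]

theorem ev_zero : Ev M (0 : Matrix (Fin n) (Fin n) Λ) := by
  apply Ev.of_apply; intro a b; simp

theorem Ev.add (hX : Ev M X) (hY : Ev M Y) : Ev M (X + Y) :=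
  Ev.of_apply fun a b => by simp [hX.apply a b, hY.apply a b]

theorem Ev.sub (hX : Ev M X) (hY : Ev M Y) : Ev M (X - Y) :=
  Ev.of_apply fun a b => by simp [hX.apply a b, hY.apply a b]

theorem Ev.neg (hX : Ev M X) : Ev M (-X) :=
  Ev.of_apply fun a b => by simp [hX.apply a b]

theorem Od.add (hX : Od M X) (hY : Od M Y) : Od M (X + Y) :=
  Od.of_apply fun a b => by
    simp only [Matrix.add_apply, map_add, hX.apply a b, hY.apply a b]; abel

theorem Od.sub (hX : Od M X) (hY : Od M Y) : Od M (X - Y) :=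
  Od.of_apply fun a b => by
    simp only [Matrix.sub_apply, map_sub, hX.apply a b, hY.apply a b]; abel

theorem Od.neg (hX : Od M X) : Od M (-X) :=
  Od.of_apply fun a b => by simp [hX.apply a b]

theorem Ev.mul (hX : Ev M X) (hY : Ev M Y) : Ev M (X * Y) := by
  unfold Ev at *; rw [map_s_mul, hX, hY]

theorem Ev.mul_od (hX : Ev M X) (hY : Od M Y) : Od M (X * Y) := by
  unfold Ev Od at *; rw [map_s_mul, hX, hY, mul_neg]

theorem Od.mul_ev (hX : Od M X) (hY : Ev M Y) : Od M (X * Y) := by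
  unfold Ev Od at *; rw [map_s_mul, hX, hY, neg_mul]

theorem Od.mul (hX : Od M X) (hY : Od M Y) : Ev M (X * Y) := by
  unfold Ev Od at *; rw [map_s_mul, hX, hY, neg_mul_neg]

theorem Ev.transpose (hX : Ev M X) : Ev M Xᵀ :=
  Ev.of_apply fun a b => hX.apply b a

theorem Od.transpose (hX : Od M X) : Od M Xᵀ :=
  Od.of_apply fun a b => hX.apply b a

theorem Ev.smul (hc : M.s c = c) (hX : Ev M X) : Ev M (c • X) :=
  Ev.of_apply fun a b => by simp [hX.apply a b, hc]

theorem Od.smul_ev (hc : M.s c = -c) (hX : Ev M X) : Od M (c • X) :=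
  Od.of_apply fun a b => by simp [hX.apply a b, hc]

theorem Ev.smul_od (hc : M.s c = c) (hX : Od M X) : Od M (c • X) :=
  Od.of_apply fun a b => by simp [hX.apply a b, hc]

theorem Ev.trace (hX : Ev M X) : M.s X.trace = X.trace := by
  simp only [Matrix.trace, Matrix.diag_apply, map_sum, hX.apply]

theorem Od.trace (hX : Od M X) : M.s X.trace = -X.trace := by
  simp only [Matrix.trace, Matrix.diag_apply, map_sum, hX.apply, Finset.sum_neg_distrib]

/-! ### trace and transpose of products -/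

theorem Ev.trace_mul_comm (hX : Ev M X) (Y : Matrix (Fin n) (Fin n) Λ) :
    (X * Y).trace = (Y * X).trace := by
  simp only [Matrix.trace, Matrix.diag_apply, Matrix.mul_apply]
  rw [Finset.sum_comm]
  refine Finset.sum_congr rfl fun a _ => Finset.sum_congr rfl fun b _ => ?_
  exact M.comm_even _ _ (hX.apply b a)

theorem Od.trace_mul_comm (hX : Od M X) (hY : Od M Y) :
    (X * Y).trace = -(Y * X).trace := by
  simp only [Matrix.trace, Matrix.diag_apply, Matrix.mul_apply]
  rw [Finset.sum_comm, ← Finset.sum_neg_distrib]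
  refine Finset.sum_congr rfl fun a _ => ?_
  rw [← Finset.sum_neg_distrib]
  refine Finset.sum_congr rfl fun b _ => ?_
  exact M.comm_odd _ _ (hX.apply b a) (hY.apply a b)

theorem Ev.transpose_mul (hX : Ev M X) (Y : Matrix (Fin n) (Fin n) Λ) :
    (X * Y)ᵀ = Yᵀ * Xᵀ := by
  ext a b
  simp only [Matrix.transpose_apply, Matrix.mul_apply]
  exact Finset.sum_congr rfl fun j _ => M.comm_even _ _ (hX.apply b j)

theorem Ev.transpose_mul_right (X : Matrix (Fin n) (Fin n) Λ) (hY : Ev M Y) :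
    (X * Y)ᵀ = Yᵀ * Xᵀ := by
  ext a b
  simp only [Matrix.transpose_apply, Matrix.mul_apply]
  exact Finset.sum_congr rfl fun j _ => (M.comm_even _ _ (hY.apply j a)).symm

theorem Od.transpose_mul (hX : Od M X) (hY : Od M Y) : (X * Y)ᵀ = -(Yᵀ * Xᵀ) := by
  ext a b
  simp only [Matrix.transpose_apply, Matrix.mul_apply, Matrix.neg_apply]
  rw [← Finset.sum_neg_distrib]
  exact Finset.sum_congr rfl fun j _ => M.comm_odd _ _ (hX.apply b j) (hY.apply j a)

/-! ### differential -/

theorem map_d_mul (X Y : Matrix (Fin n) (Fin n) Λ) :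
    (X * Y).map M.d = X.map M.d * Y + X.map M.s * Y.map M.d := by
  ext a b
  simp only [Matrix.map_apply, Matrix.mul_apply, map_sum, Matrix.add_apply, M.d_mul,
    Finset.sum_add_distrib]

theorem map_i_mul (X Y : Matrix (Fin n) (Fin n) Λ) :
    (X * Y).map M.i = X.map M.i * Y + X.map M.s * Y.map M.i := by
  ext a b
  simp only [Matrix.map_apply, Matrix.mul_apply, map_sum, Matrix.add_apply, M.i_mul,
    Finset.sum_add_distrib]

theorem Ev.map_d_mul (hX : Ev M X) (Y : Matrix (Fin n) (Fin n) Λ) :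
    (X * Y).map M.d = X.map M.d * Y + X * Y.map M.d := by
  rw [SkewP4.map_d_mul, hX]

theorem Od.map_d_mul (hX : Od M X) (Y : Matrix (Fin n) (Fin n) Λ) :
    (X * Y).map M.d = X.map M.d * Y - X * Y.map M.d := by
  rw [SkewP4.map_d_mul, hX, neg_mul, ← sub_eq_add_neg]

theorem Ev.map_i_mul (hX : Ev M X) (Y : Matrix (Fin n) (Fin n) Λ) :
    (X * Y).map M.i = X.map M.i * Y + X * Y.map M.i := by
  rw [SkewP4.map_i_mul, hX]

theorem Od.map_i_mul (hX : Od M X) (Y : Matrix (Fin n) (Fin n) Λ) :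
    (X * Y).map M.i = X.map M.i * Y - X * Y.map M.i := by
  rw [SkewP4.map_i_mul, hX, neg_mul, ← sub_eq_add_neg]

theorem map_d_add (X Y : Matrix (Fin n) (Fin n) Λ) :
    (X + Y).map M.d = X.map M.d + Y.map M.d := by ext a b; simp
theorem map_d_sub (X Y : Matrix (Fin n) (Fin n) Λ) :
    (X - Y).map M.d = X.map M.d - Y.map M.d := by ext a b; simp
theorem map_d_neg (X : Matrix (Fin n) (Fin n) Λ) :
    (-X).map M.d = -X.map M.d := by ext a b; simp
theorem map_d_zero : (0 : Matrix (Fin n) (Fin n) Λ).map M.d = 0 := by ext a b; simp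
theorem map_d_d (X : Matrix (Fin n) (Fin n) Λ) : (X.map M.d).map M.d = 0 := by
  ext a b; simp [M.d_d]
theorem map_d_transpose (X : Matrix (Fin n) (Fin n) Λ) : Xᵀ.map M.d = (X.map M.d)ᵀ := by
  ext a b; simp
theorem map_i_add (X Y : Matrix (Fin n) (Fin n) Λ) :
    (X + Y).map M.i = X.map M.i + Y.map M.i := by ext a b; simp
theorem map_i_sub (X Y : Matrix (Fin n) (Fin n) Λ) :
    (X - Y).map M.i = X.map M.i - Y.map M.i := by ext a b; simp
theorem map_i_neg (X : Matrix (Fin n) (Fin n) Λ) :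
    (-X).map M.i = -X.map M.i := by ext a b; simp
theorem map_i_transpose (X : Matrix (Fin n) (Fin n) Λ) : Xᵀ.map M.i = (X.map M.i)ᵀ := by
  ext a b; simp
theorem map_i_d (X : Matrix (Fin n) (Fin n) Λ) : (X.map M.d).map M.i = -(X.map M.i).map M.d := by
  ext a b
  have := M.d_i (X a b)
  simp only [Matrix.map_apply, Matrix.neg_apply]
  rw [this, neg_neg]

theorem map_d_smul (c : Λ) (X : Matrix (Fin n) (Fin n) Λ) :
    (c • X).map M.d = M.d c • X + M.s c • X.map M.d := by
  ext a b
  simp [M.d_mul]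

theorem map_i_smul (c : Λ) (X : Matrix (Fin n) (Fin n) Λ) :
    (c • X).map M.i = M.i c • X + M.s c • X.map M.i := by
  ext a b
  simp [M.i_mul]

theorem d_trace (X : Matrix (Fin n) (Fin n) Λ) : M.d X.trace = (X.map M.d).trace := by
  simp [Matrix.trace, map_sum]

theorem i_trace (X : Matrix (Fin n) (Fin n) Λ) : M.i X.trace = (X.map M.i).trace := by
  simp [Matrix.trace, map_sum]

theorem Ev.map_d (hX : Ev M X) : Od M (X.map M.d) :=
  Od.of_apply fun a b => by simp [M.s_d, hX.apply a b]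

theorem Od.map_d (hX : Od M X) : Ev M (X.map M.d) :=
  Ev.of_apply fun a b => by simp [M.s_d, hX.apply a b]

/-! ### scalars -/

/-- an even scalar commutes with everything: `X * (c • Y) = c • (X * Y)` -/
theorem mul_smul_ev (hc : M.s c = c) (X Y : Matrix (Fin n) (Fin n) Λ) :
    X * (c • Y) = c • (X * Y) := by
  ext a b
  simp only [Matrix.mul_apply, Matrix.smul_apply, smul_eq_mul, Finset.mul_sum]
  refine Finset.sum_congr rfl fun j _ => ?_
  rw [← mul_assoc, ← mul_assoc, M.comm_even c _ hc]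

theorem mul_smul_od (hc : M.s c = -c) (hX : Od M X) (Y : Matrix (Fin n) (Fin n) Λ) :
    X * (c • Y) = -(c • (X * Y)) := by
  ext a b
  simp only [Matrix.mul_apply, Matrix.smul_apply, smul_eq_mul, Finset.mul_sum, Matrix.neg_apply]
  rw [← Finset.sum_neg_distrib]
  refine Finset.sum_congr rfl fun j _ => ?_
  rw [← mul_assoc, ← mul_assoc, M.comm_odd _ c (hX.apply a j) hc, neg_mul]

theorem mul_smul_od_ev (hX : Ev M X) (c : Λ) (Y : Matrix (Fin n) (Fin n) Λ) :
    X * (c • Y) = c • (X * Y) := by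
  ext a b
  simp only [Matrix.mul_apply, Matrix.smul_apply, smul_eq_mul, Finset.mul_sum]
  refine Finset.sum_congr rfl fun j _ => ?_
  rw [← mul_assoc, ← mul_assoc, M.comm_even _ c (hX.apply a j)]

theorem smul_mul' (c : Λ) (X Y : Matrix (Fin n) (Fin n) Λ) :
    (c • X) * Y = c • (X * Y) := by
  ext a b
  simp only [Matrix.mul_apply, Matrix.smul_apply, smul_eq_mul, Finset.mul_sum, mul_assoc]

theorem trace_smul' (c : Λ) (X : Matrix (Fin n) (Fin n) Λ) : (c • X).trace = c * X.trace := by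
  simp [Matrix.trace, Finset.mul_sum]

/-! ### bidegrees -/

theorem MG.mul {p q p' q' : ℕ} (hX : MG M p q X) (hY : MG M p' q' Y) :
    MG M (p + p') (q + q') (X * Y) := fun a b => by
  rw [Matrix.mul_apply]
  exact Submodule.sum_mem _ fun j _ => M.mul_mem _ _ _ _ _ _ (hX a j) (hY j b)

theorem MG.add {p q : ℕ} (hX : MG M p q X) (hY : MG M p q Y) : MG M p q (X + Y) := fun a b =>
  Submodule.add_mem _ (hX a b) (hY a b)

theorem MG.sub {p q : ℕ} (hX : MG M p q X) (hY : MG M p q Y) : MG M p q (X - Y) := fun a b =>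
  Submodule.sub_mem _ (hX a b) (hY a b)

theorem MG.neg {p q : ℕ} (hX : MG M p q X) : MG M p q (-X) := fun a b =>
  Submodule.neg_mem _ (hX a b)

theorem MG.transpose {p q : ℕ} (hX : MG M p q X) : MG M p q Xᵀ := fun a b => hX b a

theorem MG.map_d {p q : ℕ} (hX : MG M p q X) : MG M p (q + 1) (X.map M.d) := fun a b =>
  M.d_mem _ _ _ (hX a b)

theorem MG.trace {p q : ℕ} (hX : MG M p q X) : X.trace ∈ M.G p q :=
  Submodule.sum_mem _ fun a _ => hX a a

theorem MG.smul {p q p' q' : ℕ} (hc : c ∈ M.G p q) (hX : MG M p' q' X) :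
    MG M (p + p') (q + q') (c • X) := fun a b => M.mul_mem _ _ _ _ _ _ hc (hX a b)

theorem MG_one : MG M 0 0 (1 : Matrix (Fin n) (Fin n) Λ) := fun a b => by
  by_cases h : a = b
  · subst h; simpa using M.one_mem
  · simp [Matrix.one_apply_ne h]

theorem MG.ev {p q : ℕ} (hX : MG M p q X) (h : Even (p + q)) : Ev M X :=
  Ev.of_apply fun a b => by rw [M.s_G p q _ (hX a b), h.neg_one_pow, one_smul]

theorem MG.od {p q : ℕ} (hX : MG M p q X) (h : Odd (p + q)) : Od M X :=
  Od.of_apply fun a b => by rw [M.s_G p q _ (hX a b), h.neg_one_pow, neg_smul, one_smul]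

theorem s_even {p q : ℕ} (hc : c ∈ M.G p q) (h : Even (p + q)) : M.s c = c := by
  rw [M.s_G p q _ hc, h.neg_one_pow, one_smul]

theorem s_odd {p q : ℕ} (hc : c ∈ M.G p q) (h : Odd (p + q)) : M.s c = -c := by
  rw [M.s_G p q _ hc, h.neg_one_pow, neg_smul, one_smul]

end Pool.Agent.SkewP4
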