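import Mathlib

/-!
# Definitions for the squad SKEW (MP_d1c004_ag, S00462)

`S` is the polynomial ring in 5 variables, `PolyData n` is the algebraic data obtained from a
5-dimensional space of skew matrices of constant rank `n - 2`, `Model Λ` is an algebraic Dolbeault
complex of `C^5 minus 0`, `LamData M n` the data moved to the model.
-/

set_option autoImplicit false

open scoped Matrix

namespace Pool.Agent.SkewP4

/-- the polynomial ring in 5 variables -/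
abbrev S : Type := MvPolynomial (Fin 5) ℂ

/-- the generic matrix of the family -/
noncomputable def genMat {n : ℕ} (A : Fin 5 → Matrix (Fin n) (Fin n) ℂ) : Matrix (Fin n) (Fin n) S :=
  ∑ j, (MvPolynomial.X j : S) • (A j).map (MvPolynomial.C : ℂ →+* S)

/-- value of the family at a point -/
noncomputable def evMat {n : ℕ} (A : Fin 5 → Matrix (Fin n) (Fin n) ℂ) (x : Fin 5 → ℂ) :
    Matrix (Fin n) (Fin n) ℂ :=
  ∑ j, x j • A j

/-- constant rank `n - 2`, skew -/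
structure ConstRank {n : ℕ} (A : Fin 5 → Matrix (Fin n) (Fin n) ℂ) : Prop where
  three_le : 3 ≤ n
  skew : ∀ j, (A j)ᵀ = -(A j)
  rk : ∀ x : Fin 5 → ℂ, x ≠ 0 → (evMat A x).rank + 2 = n

/-- polynomial data -/
structure PolyData {n : ℕ} (A : Fin 5 → Matrix (Fin n) (Fin n) ℂ) where
  N : ℕ
  Q : Fin 5 → Matrix (Fin n) (Fin n) S
  pi : Matrix (Fin n) (Fin n) S
  three_le : 3 ≤ n
  skew : ∀ j, (A j)ᵀ = -(A j)
  Q_skew : ∀ j, (Q j)ᵀ = -(Q j)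
  AQA : ∀ j, genMat A * Q j * genMat A = (MvPolynomial.X j : S) ^ N • genMat A
  trQA : ∀ j, (Q j * genMat A).trace = ((n : S) - 2) * (MvPolynomial.X j : S) ^ N
  iso : ∀ i j k, ((MvPolynomial.X i : S) ^ N • (1 : Matrix (Fin n) (Fin n) S) - genMat A * Q i)
      * (A j).map (MvPolynomial.C : ℂ →+* S)
      * ((MvPolynomial.X k : S) ^ N • (1 : Matrix (Fin n) (Fin n) S) - Q k * genMat A) = 0
  pi_skew : piᵀ = -pi
  A_pi : genMat A * pi = 0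
  wedge : ∀ u v : Fin n → S, genMat A *ᵥ u = 0 → genMat A *ᵥ v = 0 →
    ∃ g : S, ∀ a b, u a * v b - v a * u b = g * pi a b

/-- An algebraic Dolbeault complex of `C^5` minus the origin: a super commutative algebra `Λ` with
parity `s`, differential `d` (bidegree `(0,1)`), contraction `i` with the Euler field (bidegree
`(-1,0)`), bidegrees `G p q`, polynomial functions `inc`, the forms `dx`, functions `y` with
`∑ x_j y_j = 1`, and `Z p` = polynomial forms. -/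
structure Model (Λ : Type) [Ring Λ] [Algebra ℂ Λ] where
  s : Λ →ₐ[ℂ] Λ
  d : Λ →ₗ[ℂ] Λ
  i : Λ →ₗ[ℂ] Λ
  comm_even : ∀ a b : Λ, s a = a → a * b = b * a
  comm_odd : ∀ a b : Λ, s a = -a → s b = -b → a * b = -(b * a)
  d_mul : ∀ a b : Λ, d (a * b) = d a * b + s a * d b
  i_mul : ∀ a b : Λ, i (a * b) = i a * b + s a * i b
  s_d : ∀ a : Λ, s (d a) = -d (s a)
  s_i : ∀ a : Λ, s (i a) = -i (s a)
  d_d : ∀ a : Λ, d (d a) = 0
  i_i : ∀ a : Λ, i (i a) = 0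
  d_i : ∀ a : Λ, d (i a) = -i (d a)
  G : ℕ → ℕ → Submodule ℂ Λ
  s_G : ∀ p q (a : Λ), a ∈ G p q → s a = (-1 : ℂ) ^ (p + q) • a
  one_mem : (1 : Λ) ∈ G 0 0
  mul_mem : ∀ p q p' q' (a b : Λ), a ∈ G p q → b ∈ G p' q' → a * b ∈ G (p + p') (q + q')
  d_mem : ∀ p q (a : Λ), a ∈ G p q → d a ∈ G p (q + 1)
  i_mem : ∀ p q (a : Λ), a ∈ G (p + 1) q → i a ∈ G p q
  i_zero : ∀ q (a : Λ), a ∈ G 0 q → i a = 0
  inc : S →ₐ[ℂ] Λ
  inc_mem : ∀ f, inc f ∈ G 0 0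
  d_inc : ∀ f, d (inc f) = 0
  dx : Fin 5 → Λ
  dx_mem : ∀ j, dx j ∈ G 1 0
  d_dx : ∀ j, d (dx j) = 0
  i_dx : ∀ j, i (dx j) = inc (MvPolynomial.X j)
  y : Fin 5 → Λ
  y_mem : ∀ j, y j ∈ G 0 0
  sum_y : ∑ j, inc (MvPolynomial.X j) * y j = 1
  Z : ℕ → Submodule ℂ Λ
  Z_le : ∀ p, Z p ≤ G p 0
  d_Z : ∀ p (a : Λ), a ∈ Z p → d a = 0
  closed_zero : ∀ p (a : Λ), a ∈ G p 0 → d a = 0 → a ∈ Z p
  Z_zero : ∀ a : Λ, a ∈ Z 0 → ∃ f : S, a = inc f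
  exact : ∀ p q (a : Λ), q ≤ 2 → a ∈ G p (q + 1) → d a = 0 → ∃ b ∈ G p q, d b = a
  koszul : ∀ a : Λ, a ∈ Z 2 → i a = 0 → ∃ b ∈ Z 3, i b = a
  nonunit : ∀ (f : S) (b : Λ), b ∈ Z 1 → i b = inc f → MvPolynomial.constantCoeff f = 0

/-- The data in the model. -/
structure LamData {Λ : Type} [Ring Λ] [Algebra ℂ Λ] (M : Model Λ) (n : ℕ) where
  A : Matrix (Fin n) (Fin n) Λ
  D : Matrix (Fin n) (Fin n) Λ
  Q : Matrix (Fin n) (Fin n) Λ
  pi : Matrix (Fin n) (Fin n) Λ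
  eps : Matrix (Fin n) (Fin n) Λ
  A_mem : ∀ a b, A a b ∈ M.G 0 0
  D_mem : ∀ a b, D a b ∈ M.G 1 0
  Q_mem : ∀ a b, Q a b ∈ M.G 0 0
  pi_mem : ∀ a b, pi a b ∈ M.G 0 0
  eps_mem : ∀ a b, eps a b ∈ M.G 0 0
  dA : A.map M.d = 0
  dD : D.map M.d = 0
  dpi : pi.map M.d = 0
  iD : D.map M.i = A
  A_skew : Aᵀ = -A
  D_skew : Dᵀ = -D
  Q_skew : Qᵀ = -Q
  pi_skew : piᵀ = -pi
  eps_skew : epsᵀ = -eps
  AQA : A * Q * A = A
  iso : (1 - A * Q) * D * (1 - Q * A) = 0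
  trQA : (Q * A).trace = algebraMap ℂ Λ ((n : ℂ) - 2)
  A_pi : A * pi = 0
  wedge : ∀ a b c e, (1 - Q * A) a c * (1 - Q * A) b e - (1 - Q * A) a e * (1 - Q * A) b c
    = pi a b * eps c e

end Pool.Agent.SkewP4
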