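import Pool.Agent.Helper30_SkewP4.Stmts

/-!
# Assembly of `S00462` from the modules
-/

set_option autoImplicit false

open scoped Matrix

namespace Pool.Agent.SkewP4

theorem no_constRank (hP : PolyStmt) (hL : LamStmt) (hM : ModelStmt) (hC : ContraStmt)
    {n : ℕ} {A : Fin 5 → Matrix (Fin n) (Fin n) ℂ} (hA : ConstRank A) : False := by
  obtain ⟨W⟩ := hP n A hA
  obtain ⟨Λ, r, al, ⟨M⟩⟩ := hM
  obtain ⟨D⟩ := hL Λ M n A W
  exact hC Λ M n D hA.three_le

theorem not_main (hP : PolyStmt) (hL : LamStmt) (hM : ModelStmt) (hC : ContraStmt) :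
    ¬ (∃ n : ℕ, ∃ V : Submodule ℂ (Matrix (Fin n) (Fin n) ℂ),
      Module.finrank ℂ V = 5 ∧
      (∀ A ∈ V, A.transpose = -A) ∧
      (∀ A ∈ V, A ≠ 0 → A.rank + 2 = n)) := by
  rintro ⟨n, V, hdim, hskew, hrk⟩
  have b : Module.Basis (Fin 5) ℂ V := Module.finBasisOfFinrankEq ℂ V hdim
  refine no_constRank hP hL hM hC (n := n) (A := fun j => (b j : Matrix (Fin n) (Fin n) ℂ)) ?_
  refine ⟨?_, fun j => hskew _ (b j).2, fun x hx => ?_⟩
  · by_contra hn
    have h1 : Module.finrank ℂ V ≤ Module.finrank ℂ (Matrix (Fin n) (Fin n) ℂ) :=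
      Submodule.finrank_le V
    rw [hdim, Module.finrank_matrix] at h1
    simp only [Fintype.card_fin, Module.finrank_self, mul_one] at h1
    have : n ≤ 2 := by omega
    nlinarith
  · have key : evMat (fun j => (b j : Matrix (Fin n) (Fin n) ℂ)) x
        = ((∑ j, x j • b j : V) : Matrix (Fin n) (Fin n) ℂ) := by
      simp [evMat]
    rw [key]
    apply hrk _ (Submodule.coe_mem _)
    intro h0
    apply hx
    have h1 : (∑ j, x j • b j : V) = 0 := by
      apply Subtype.ext; simpa using h0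
    have := Fintype.linearIndependent_iff.1 b.linearIndependent x h1
    funext j; exact this j

end Pool.Agent.SkewP4
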