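import Pool.Agent.Helper30_SkewP4.Calc

/-!
# The matrices of forms attached to `LamData` and the statements of part I
-/

set_option autoImplicit false

open scoped Matrix

namespace Pool.Agent.SkewP4

variable {Λ : Type} [Ring Λ] [Algebra ℂ Λ] {M : Model Λ} {n : ℕ}

namespace LamData

variable (W : LamData M n)

/-- projector on the kernel -/
def P : Matrix (Fin n) (Fin n) Λ := 1 - W.Q * W.A
/-- its transpose -/
def P' : Matrix (Fin n) (Fin n) Λ := 1 - W.A * W.Q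
/-- `q = dQ` -/
def q : Matrix (Fin n) (Fin n) Λ := W.Q.map M.d
/-- the connection form of `O(1)`: a scalar of type `(1,0)` with `i al = 1` -/
noncomputable def al : Λ := ((n : ℂ) - 2)⁻¹ • (W.Q * W.D).trace
/-- the Kähler form -/
noncomputable def h : Λ := M.d W.al
/-- covariant derivative of `A` -/
noncomputable def Dh : Matrix (Fin n) (Fin n) Λ := W.D - W.al • W.A
/-- curvature -/
def F : Matrix (Fin n) (Fin n) Λ := W.q * W.D * W.P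
/-- trace of the curvature -/
def t : Λ := W.F.trace
/-- second Chern form -/
noncomputable def de : Λ := (2 : ℂ)⁻¹ • (W.t * W.t - (W.F * W.F).trace)
/-- beta -/
def be : Matrix (Fin n) (Fin n) Λ := W.q * W.A * W.q
/-- omega -/
def om : Matrix (Fin n) (Fin n) Λ := W.P' * W.D * W.Q * W.D * W.P
/-- `Psi` -/
noncomputable def Psi : Matrix (Fin n) (Fin n) Λ :=
  W.q * W.A * (W.Q * W.Dh * W.Q) * W.D * W.P
/-- `C0` -/
noncomputable def C0 : Matrix (Fin n) (Fin n) Λ := W.Dh * W.Q * W.Dh * W.Q * W.Dh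
/-- `tau_1` -/
def t1 : Λ := (W.be * W.om).trace
/-- `tau_2` -/
def t2 : Λ := (W.be * W.om * W.F).trace
/-- `tau_3` -/
def t3 : Λ := (W.be * W.om * W.F * W.F).trace
/-- `tau_3'` -/
def t3' : Λ := (W.be * W.Fᵀ * W.om * W.F).trace
/-- the skew part of `om F`, as a scalar form -/
def chi : Λ := (W.pi * W.om * W.F).trace
/-- `Y` -/
def Y : Matrix (Fin n) (Fin n) Λ := W.F * W.be - W.be * W.Fᵀ
/-- `Y = ups * pi` -/
noncomputable def ups : Λ := (2 : ℂ)⁻¹ • (W.epsᵀ * W.Y).trace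

end LamData

/-- BASIC: first identities. -/
structure Basic (W : LamData M n) : Prop where
  evA : Ev M W.A
  evQ : Ev M W.Q
  odD : Od M W.D
  odq : Od M W.q
  evpi : Ev M W.pi
  eveps : Ev M W.eps
  evP : Ev M W.P
  evP' : Ev M W.P'
  evF : Ev M W.F
  evbe : Ev M W.be
  evom : Ev M W.om
  AP : W.A * W.P = 0
  P'A : W.P' * W.A = 0
  PP : W.P * W.P = W.P
  P'P' : W.P' * W.P' = W.P'
  PT : W.Pᵀ = W.P'
  AqA : W.A * W.q * W.A = 0
  P'DP : W.P' * W.D * W.P = 0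
  AQDP : W.A * W.Q * W.D * W.P = W.D * W.P
  P'DQA : W.P' * W.D * W.Q * W.A = W.P' * W.D
  AqDP : W.A * W.q * W.D * W.P = 0
  P'DqA : W.P' * W.D * W.q * W.A = 0
  P'DqDP : W.P' * W.D * W.q * W.D * W.P = 0
  AF : W.A * W.F = 0
  FP : W.F * W.P = W.F
  PF : W.P * W.F = W.F
  qT : W.qᵀ = -W.q
  FT : W.Fᵀ = -(W.P' * W.D * W.q)
  FTA : W.Fᵀ * W.A = 0
  FTP' : W.Fᵀ * W.P' = W.Fᵀ
  P'FT : W.P' * W.Fᵀ = W.Fᵀ
  beT : W.beᵀ = W.be
  Abe : W.A * W.be = 0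
  beA : W.be * W.A = 0
  Pbe : W.P * W.be = W.be
  beP' : W.be * W.P' = W.be
  omT : W.omᵀ = W.om
  P'om : W.P' * W.om = W.om
  omP : W.om * W.P = W.om
  dq : W.q.map M.d = 0
  dP : W.P.map M.d = -(W.q * W.A)
  dP' : W.P'.map M.d = -(W.A * W.q)
  dbe : W.be.map M.d = 0
  dF : W.F.map M.d = -(W.q * W.D * W.q * W.A)
  iA : W.A.map M.i = 0
  iQ : W.Q.map M.i = 0
  iq : W.q.map M.i = 0
  iP : W.P.map M.i = 0
  iP' : W.P'.map M.i = 0
  iF : W.F.map M.i = 0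
  ibe : W.be.map M.i = 0
  iom : W.om.map M.i = 0

/-- SCAL: the scalar `al`, `h`, `Dh`. -/
structure Scal (W : LamData M n) : Prop where
  al_mem : W.al ∈ M.G 1 0
  h_mem : W.h ∈ M.G 1 1
  s_al : M.s W.al = -W.al
  s_h : M.s W.h = W.h
  i_al : M.i W.al = 1
  dh : M.d W.h = 0
  ih : M.i W.h = 0
  t_eq : W.t = (((n : ℂ) - 2) / 2) • W.h
  odDh : Od M W.Dh
  iDh : W.Dh.map M.i = 0
  dDh : W.Dh.map M.d = -(W.h • W.A)
  P'Dh : W.P' * W.Dh = W.P' * W.D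
  DhP : W.Dh * W.P = W.D * W.P

/-- R1 -/
def R1 (W : LamData M n) : Prop :=
  W.be * W.om = W.F * W.F + W.h • W.F - W.Psi.map M.d * W.P

/-- R2 -/
def R2 (W : LamData M n) : Prop :=
  W.P' * W.C0.map M.d * W.P = W.h • W.om + W.Fᵀ * W.om + W.om * W.F

/-- PSI: facts on `Psi` and `C0`. -/
structure PsiC (W : LamData M n) : Prop where
  odPsi : Od M W.Psi
  odC0 : Od M W.C0
  APsi : W.A * W.Psi = 0
  PsiP : W.Psi * W.P = W.Psi
  iPsi : W.Psi.map M.i = 0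
  iC0 : W.C0.map M.i = 0

/-- TR: the trace relations (T1), (T2), (I), (IV0). -/
structure Tr (W : LamData M n) : Prop where
  T1 : W.t1 = (W.F * W.F).trace + W.h * W.t - M.d W.Psi.trace
  T2 : W.t2 = (W.F * W.F * W.F).trace + W.h * (W.F * W.F).trace - M.d (W.Psi * W.F).trace
  T3 : (2 : ℂ) • W.t2 + W.h * W.t1 = M.d (W.be * W.C0).trace
  T4 : W.t3 + W.t3' + W.h * W.t2 = M.d (W.be * W.C0 * W.F).trace

/-- RK: consequences of rank two. -/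
structure Rk (W : LamData M n) : Prop where
  wedge2 : ∀ X : Matrix (Fin n) (Fin n) Λ, Xᵀ = -X → W.P * X = X → X * W.P' = X →
    X = ((2 : ℂ)⁻¹ • (W.epsᵀ * X).trace) • W.pi
  P_pi : W.P * W.pi = W.pi
  pi_P' : W.pi * W.P' = W.pi
  pi_epsT : W.pi * W.epsᵀ = W.P
  epsT_pi : W.epsᵀ * W.pi = W.P'
  CH : W.F * W.F = W.t • W.F - W.de • W.P

/-- ANTI: the skew part. -/
structure Anti (W : LamData M n) : Prop where
  chi_mem : W.chi ∈ M.G 3 1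
  d_chi : M.d W.chi = 0
  i_chi : M.i W.chi = 0
  ups_mem : W.ups ∈ M.G 1 3
  d_ups : M.d W.ups = 0
  i_ups : M.i W.ups = 0
  T5 : W.t3 - W.t3' = W.ups * W.chi

/-- E1 -/
def E1 (M : Model Λ) : Prop :=
  ∀ c ∈ M.G 3 1, M.d c = 0 → M.i c = 0 → ∃ z ∈ M.G 3 0, M.i z = 0 ∧ M.d z = c

/-- E2 -/
def E2 (M : Model Λ) : Prop :=
  ∀ al ∈ M.G 1 0, M.i al = 1 → ∀ c ∈ M.G 2 2, M.d c = 0 → M.i c = 0 →
    ∃ f : S, ∃ m ∈ M.G 2 1, M.i m = 0 ∧ c = M.inc f * (M.d al * M.d al) + M.d m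

/-- E3 -/
def E3 (M : Model Λ) : Prop :=
  ∀ al ∈ M.G 1 0, M.i al = 1 → ∀ f : S, ∀ x ∈ M.G 4 3, M.i x = 0 →
    M.inc f * (M.d al * M.d al * (M.d al * M.d al)) = M.d x → MvPolynomial.constantCoeff f = 0

/-- DEL: the form `de`. -/
structure Del (W : LamData M n) : Prop where
  de_mem : W.de ∈ M.G 2 2
  d_de : M.d W.de = 0
  i_de : M.i W.de = 0

/-! ### statements of the modules of part I -/

/-- BASIC -/
def BasicStmt : Prop := ∀ (Λ : Type) [Ring Λ] [Algebra ℂ Λ] (M : Model Λ) (n : ℕ) (W : LamData M n),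
  Basic W
/-- SCAL -/
def ScalStmt : Prop := ∀ (Λ : Type) [Ring Λ] [Algebra ℂ Λ] (M : Model Λ) (n : ℕ) (W : LamData M n),
  3 ≤ n → Scal W
/-- PSI -/
def PsiStmt : Prop := ∀ (Λ : Type) [Ring Λ] [Algebra ℂ Λ] (M : Model Λ) (n : ℕ) (W : LamData M n),
  3 ≤ n → PsiC W
/-- R1 -/
def R1Stmt : Prop := ∀ (Λ : Type) [Ring Λ] [Algebra ℂ Λ] (M : Model Λ) (n : ℕ) (W : LamData M n),
  3 ≤ n → R1 W
/-- R2 -/
def R2Stmt : Prop := ∀ (Λ : Type) [Ring Λ] [Algebra ℂ Λ] (M : Model Λ) (n : ℕ) (W : LamData M n),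
  3 ≤ n → R2 W
/-- TR -/
def TrStmt : Prop := ∀ (Λ : Type) [Ring Λ] [Algebra ℂ Λ] (M : Model Λ) (n : ℕ) (W : LamData M n),
  3 ≤ n → Tr W
/-- RK -/
def RkStmt : Prop := ∀ (Λ : Type) [Ring Λ] [Algebra ℂ Λ] (M : Model Λ) (n : ℕ) (W : LamData M n),
  3 ≤ n → Rk W
/-- ANTI -/
def AntiStmt : Prop := ∀ (Λ : Type) [Ring Λ] [Algebra ℂ Λ] (M : Model Λ) (n : ℕ) (W : LamData M n),
  3 ≤ n → Anti W
/-- DEL -/
def DelStmt : Prop := ∀ (Λ : Type) [Ring Λ] [Algebra ℂ Λ] (M : Model Λ) (n : ℕ) (W : LamData M n),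
  3 ≤ n → Del W
/-- E1 -/
def E1Stmt : Prop := ∀ (Λ : Type) [Ring Λ] [Algebra ℂ Λ] (M : Model Λ), E1 M
/-- E2 -/
def E2Stmt : Prop := ∀ (Λ : Type) [Ring Λ] [Algebra ℂ Λ] (M : Model Λ), E2 M
/-- E3 -/
def E3Stmt : Prop := ∀ (Λ : Type) [Ring Λ] [Algebra ℂ Λ] (M : Model Λ), E3 M
/-- CONTRA: the final contradiction of part I -/
def ContraStmt : Prop :=
  ∀ (Λ : Type) [Ring Λ] [Algebra ℂ Λ] (M : Model Λ) (n : ℕ) (_ : LamData M n), 3 ≤ n → False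

end Pool.Agent.SkewP4
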