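import Pool.Agent.Helper30_SkewP4.Sup
import Pool.Agent.Helper30_SkewP4.Forms

/-!
# Statements: part III (linear algebra over `S`), LAM (passage to the model), model part on `L ⊗ E`
-/

set_option autoImplicit false

open scoped Matrix TensorProduct

namespace Pool.Agent.SkewP4

/-! ### Part III -/

/-- TAN: the kernels are isotropic for the whole space. -/
def TanStmt : Prop :=
  ∀ (n : ℕ) (A : Fin 5 → Matrix (Fin n) (Fin n) ℂ), ConstRank A →
    ∀ x : Fin 5 → ℂ, x ≠ 0 → ∀ u v : Fin n → ℂ, evMat A x *ᵥ u = 0 → evMat A x *ᵥ v = 0 →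
      ∀ j, v ⬝ᵥ (A j *ᵥ u) = 0

/-- BLK: for every point `x ≠ 0` there are a polynomial `p` with `p(x) ≠ 0` and a polynomial matrix
`Q` with `A Q A = p A`. -/
def BlkStmt : Prop :=
  ∀ (n : ℕ) (A : Fin 5 → Matrix (Fin n) (Fin n) ℂ), ConstRank A →
    ∀ x : Fin 5 → ℂ, x ≠ 0 → ∃ (p : S) (Q : Matrix (Fin n) (Fin n) S),
      MvPolynomial.eval x p ≠ 0 ∧ genMat A * Q * genMat A = p • genMat A

/-- QEX: pseudo inverses with `x_j^N`. -/
def QexStmt : Prop :=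
  ∀ (n : ℕ) (A : Fin 5 → Matrix (Fin n) (Fin n) ℂ), ConstRank A →
    ∃ (N : ℕ) (Q : Fin 5 → Matrix (Fin n) (Fin n) S), (∀ j, (Q j)ᵀ = -(Q j)) ∧
      ∀ j, genMat A * Q j * genMat A = (MvPolynomial.X j : S) ^ N • genMat A

/-- TRQ: the trace of `Q A`. -/
def TrqStmt : Prop :=
  ∀ (n : ℕ) (A : Fin 5 → Matrix (Fin n) (Fin n) ℂ), ConstRank A →
    ∀ (j : Fin 5) (N : ℕ) (Q : Matrix (Fin n) (Fin n) S),
      genMat A * Q * genMat A = (MvPolynomial.X j : S) ^ N • genMat A →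
      (Q * genMat A).trace = ((n : S) - 2) * (MvPolynomial.X j : S) ^ N

/-- ISO: isotropy on the level of polynomials. -/
def IsoStmt : Prop :=
  ∀ (n : ℕ) (A : Fin 5 → Matrix (Fin n) (Fin n) ℂ), ConstRank A →
    ∀ (i k : Fin 5) (N : ℕ) (Q Q' : Matrix (Fin n) (Fin n) S),
      Qᵀ = -Q →
      genMat A * Q * genMat A = (MvPolynomial.X i : S) ^ N • genMat A →
      genMat A * Q' * genMat A = (MvPolynomial.X k : S) ^ N • genMat A →
      ∀ j, ((MvPolynomial.X i : S) ^ N • (1 : Matrix (Fin n) (Fin n) S) - genMat A * Q)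
        * (A j).map (MvPolynomial.C : ℂ →+* S)
        * ((MvPolynomial.X k : S) ^ N • (1 : Matrix (Fin n) (Fin n) S) - Q' * genMat A) = 0

/-- PIE: the generator `pi` of `wedge^2` of the kernel. -/
def PieStmt : Prop :=
  ∀ (n : ℕ) (A : Fin 5 → Matrix (Fin n) (Fin n) ℂ), ConstRank A →
    ∃ pi : Matrix (Fin n) (Fin n) S, piᵀ = -pi ∧ genMat A * pi = 0 ∧
      ∀ u v : Fin n → S, genMat A *ᵥ u = 0 → genMat A *ᵥ v = 0 →
        ∃ g : S, ∀ a b, u a * v b - v a * u b = g * pi a b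

/-- POLY: all polynomial data. -/
def PolyStmt : Prop :=
  ∀ (n : ℕ) (A : Fin 5 → Matrix (Fin n) (Fin n) ℂ), ConstRank A → Nonempty (PolyData A)

/-- ETA: partition of unity. -/
def EtaStmt : Prop :=
  ∀ (Λ : Type) [Ring Λ] [Algebra ℂ Λ] (M : Model Λ) (N : ℕ),
    ∃ η : Fin 5 → Λ, (∀ j, η j ∈ M.G 0 0) ∧ ∑ j, M.inc (MvPolynomial.X j) ^ N * η j = 1

/-- LAM: passage to the model. -/
def LamStmt : Prop :=
  ∀ (Λ : Type) [Ring Λ] [Algebra ℂ Λ] (M : Model Λ) (n : ℕ)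
    (A : Fin 5 → Matrix (Fin n) (Fin n) ℂ), PolyData A → Nonempty (LamData M n)

/-! ### The model on `L ⊗ E` -/

/-- inclusion of the polynomial level -/
noncomputable def jT : T →ₐ[ℂ] Lam :=
  Algebra.TensorProduct.map (IsScalarTower.toAlgHom ℂ R L) (AlgHom.id ℂ E)

/-- properties of the derivations -/
structure PdProp (pd : Fin 5 → (L →ₗ[ℂ] L)) : Prop where
  mul : ∀ j a b, pd j (a * b) = pd j a * b + a * pd j b
  alg : ∀ j (r : R), pd j (algebraMap R L r) = algebraMap R L (MvPolynomial.pderiv (Sum.inr j) r)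
  comm : ∀ i j a, pd i (pd j a) = pd j (pd i a)

/-- the differential -/
noncomputable def dLam (pd : Fin 5 → (L →ₗ[ℂ] L)) : Lam →ₗ[ℂ] Lam := opPsi pd Sum.inr

/-- the contraction with the Euler field in `x` -/
noncomputable def iLam : Lam →ₗ[ℂ] Lam :=
  opPhi (fun j => LinearMap.mulLeft ℂ (algebraMap R L (MvPolynomial.X (Sum.inl j)))) Sum.inl

/-- parity -/
noncomputable def sLam : Lam →ₐ[ℂ] Lam := sS

/-- `ρ` in `L ⊗ E` -/
noncomputable def rhoL : Lam := (algebraMap R L rhoR) ⊗ₜ[ℂ] (1 : E)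

/-- forms of type `(p,q)` on the variety -/
def InG (p q : ℕ) (a : Lam) : Prop := ∃ k : ℕ, ∃ g ∈ TK p q k, rhoL ^ k * a = jT g

/-- LSUP: the super structure on `L ⊗ E`. -/
structure LsupStmt : Prop where
  comm_even : ∀ a b : Lam, sLam a = a → a * b = b * a
  comm_odd : ∀ a b : Lam, sLam a = -a → sLam b = -b → a * b = -(b * a)
  d_mul : ∀ pd, PdProp pd → ∀ a b : Lam, dLam pd (a * b) = dLam pd a * b + sLam a * dLam pd b
  i_mul : ∀ a b : Lam, iLam (a * b) = iLam a * b + sLam a * iLam b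
  s_d : ∀ pd, PdProp pd → ∀ a : Lam, sLam (dLam pd a) = -dLam pd (sLam a)
  s_i : ∀ a : Lam, sLam (iLam a) = -iLam (sLam a)
  d_d : ∀ pd, PdProp pd → ∀ a : Lam, dLam pd (dLam pd a) = 0
  i_i : ∀ a : Lam, iLam (iLam a) = 0
  d_i : ∀ pd, PdProp pd → ∀ a : Lam, dLam pd (iLam a) = -iLam (dLam pd a)

/-- JT: compatibility of `jT`. -/
structure JtStmt : Prop where
  inj : Function.Injective jT
  d : ∀ pd, PdProp pd → ∀ t, dLam pd (jT t) = jT (opD t)
  i : ∀ t, iLam (jT t) = jT (opI t)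
  s : ∀ t, sLam (jT t) = jT (sS t)
  rho : ∀ t, rhoL * jT t = jT (opRho t)
  rho_comm : ∀ a : Lam, rhoL * a = a * rhoL
  rho_cancel : ∀ a : Lam, rhoL * a = 0 → a = 0
  rho_div : ∀ a : Lam, ∃ b : Lam, rhoL * b = a
  d_rho : ∀ pd, PdProp pd → ∀ (k : ℕ) (a : Lam), dLam pd (rhoL ^ (k + 1) * a)
    = rhoL ^ (k + 1) * dLam pd a
      + ((k : ℂ) + 1) • (rhoL ^ k * (jT (opE ((1 : R) ⊗ₜ[ℂ] (1 : E))) * a))
  e_mul : ∀ t, jT (opE ((1 : R) ⊗ₜ[ℂ] (1 : E))) * jT t = jT (opE t)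

/-- TMUL: products on the level of `T`. -/
structure TmulStmt : Prop where
  mul_mem : ∀ p q k p' q' k' g g', g ∈ TK p q k → g' ∈ TK p' q' k' →
    g * g' ∈ TK (p + p') (q + q') (k + k')
  one_mem : (1 : T) ∈ TK 0 0 0
  s_mem : ∀ p q k g, g ∈ TK p q k → sS g = (-1 : ℂ) ^ (p + q) • g
  rho_mem : ∀ p q k g, g ∈ TK p q k → opRho g ∈ TK p q (k + 1)
  rho_mul : ∀ g : T, (rhoR ⊗ₜ[ℂ] (1 : E)) * g = opRho g
  I_mem : ∀ p q k g, g ∈ TK (p + 1) q k → opI g ∈ TK p q k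
  D_mem : ∀ p q k g, g ∈ TK p q k →
    opRho (opD g) - (k : ℂ) • opE g ∈ TK p (q + 1) (k + 1)

/-- GG: closure properties of `InG`. -/
structure GgStmt : Prop where
  zero : ∀ p q, InG p q 0
  add : ∀ p q a b, InG p q a → InG p q b → InG p q (a + b)
  smul : ∀ p q (c : ℂ) a, InG p q a → InG p q (c • a)
  one : InG 0 0 1
  mul : ∀ p q p' q' a b, InG p q a → InG p' q' b → InG (p + p') (q + q') (a * b)
  s : ∀ p q a, InG p q a → sLam a = (-1 : ℂ) ^ (p + q) • a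
  d : ∀ pd, PdProp pd → ∀ p q a, InG p q a → InG p (q + 1) (dLam pd a)
  i : ∀ p q a, InG (p + 1) q a → InG p q (iLam a)
  i0 : ∀ q a, InG 0 q a → iLam a = 0

/-- GEX: exactness. -/
def GexStmt : Prop :=
  ∀ pd, PdProp pd → ∀ (p q : ℕ) (a : Lam), q ≤ 2 → InG p (q + 1) a → dLam pd a = 0 →
    ∃ b, InG p q b ∧ dLam pd b = a

/-- GZE: closed forms of type `(p,0)`. -/
def GzeStmt : Prop :=
  ∀ pd, PdProp pd → ∀ (p : ℕ) (a : Lam), InG p 0 a → dLam pd a = 0 → ∃ z ∈ TK p 0 0, a = jT z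

/-- MODEL: existence of a model. -/
def ModelStmt : Prop :=
  ∃ (Λ : Type) (r : Ring Λ) (al : @Algebra ℂ Λ _ (@Ring.toSemiring Λ r)),
    Nonempty (@Model Λ r al)

end Pool.Agent.SkewP4
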