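import Pool.Agent.Helper30_SkewP4.Defs

/-!
# Concrete objects for the model: exterior algebra on dx, dy; super polynomials; operators
-/

set_option autoImplicit false

open scoped TensorProduct

namespace Pool.Agent.SkewP4

/-- indices: `inl j` for the variable `x_j`, `inr j` for `y_j` -/
abbrev Ix : Type := Fin 5 ⊕ Fin 5

/-- the exterior algebra on `dx_j, dy_j` -/
abbrev E : Type := ExteriorAlgebra ℂ (Ix → ℂ)

/-- generators -/
noncomputable def gen (a : Ix) : E := ExteriorAlgebra.ι ℂ (Pi.single a (1 : ℂ))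

/-- left multiplication by a generator -/
noncomputable def psi (a : Ix) : E →ₗ[ℂ] E := LinearMap.mulLeft ℂ (gen a)

/-- contraction with the dual of a generator -/
noncomputable def phi (a : Ix) : E →ₗ[ℂ] E :=
  CliffordAlgebra.contractLeft (Q := (0 : QuadraticForm ℂ (Ix → ℂ))) (LinearMap.proj a)

/-- the parity automorphism -/
noncomputable def sE : E →ₐ[ℂ] E :=
  CliffordAlgebra.involute (Q := (0 : QuadraticForm ℂ (Ix → ℂ)))

/-- span of the `dx_j` -/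
noncomputable def Vx : Submodule ℂ E := Submodule.span ℂ (Set.range fun j : Fin 5 => gen (Sum.inl j))

/-- span of the `dy_j` -/
noncomputable def Vy : Submodule ℂ E := Submodule.span ℂ (Set.range fun j : Fin 5 => gen (Sum.inr j))

/-- forms of type `(p,q)` with constant coefficients -/
noncomputable def Epq (p q : ℕ) : Submodule ℂ E := Vx ^ p * Vy ^ q

/-- EXT1: the relations of the operators `psi`, `phi`, `sE`. -/
structure Ext1Stmt : Prop where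
  psi_psi : ∀ a b w, psi a (psi b w) = -psi b (psi a w)
  phi_phi : ∀ a b w, phi a (phi b w) = -phi b (phi a w)
  phi_psi : ∀ a b w, phi a (psi b w) + psi b (phi a w) = if a = b then w else 0
  phi_one : ∀ a, phi a 1 = 0
  phi_mul : ∀ a w w', phi a (w * w') = phi a w * w' + sE w * phi a w'
  gen_mul : ∀ a w, gen a * w = sE w * gen a
  sE_sE : ∀ w, sE (sE w) = w
  sE_psi : ∀ a w, sE (psi a w) = -psi a (sE w)
  sE_phi : ∀ a w, sE (phi a w) = -phi a (sE w)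
  even_comm : ∀ w w', sE w = w → w * w' = w' * w
  odd_comm : ∀ w w', sE w = -w → sE w' = -w' → w * w' = -(w' * w)

/-- EXT2: bidegrees. -/
structure Ext2Stmt : Prop where
  one_mem : (1 : E) ∈ Epq 0 0
  mem_zero : ∀ w ∈ Epq 0 0, ∃ c : ℂ, w = algebraMap ℂ E c
  mul_mem : ∀ p q p' q' w w', w ∈ Epq p q → w' ∈ Epq p' q' → w * w' ∈ Epq (p + p') (q + q')
  sE_mem : ∀ p q w, w ∈ Epq p q → sE w = (-1 : ℂ) ^ (p + q) • w
  psi_x : ∀ p q j w, w ∈ Epq p q → psi (Sum.inl j) w ∈ Epq (p + 1) q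
  psi_y : ∀ p q j w, w ∈ Epq p q → psi (Sum.inr j) w ∈ Epq p (q + 1)
  phi_x : ∀ p q j w, w ∈ Epq (p + 1) q → phi (Sum.inl j) w ∈ Epq p q
  phi_y : ∀ p q j w, w ∈ Epq p (q + 1) → phi (Sum.inr j) w ∈ Epq p q
  phi_x_zero : ∀ q j w, w ∈ Epq 0 q → phi (Sum.inl j) w = 0
  phi_y_zero : ∀ p j w, w ∈ Epq p 0 → phi (Sum.inr j) w = 0
  num_x : ∀ p q w, w ∈ Epq p q → ∑ j : Fin 5, psi (Sum.inl j) (phi (Sum.inl j) w) = (p : ℂ) • w
  num_y : ∀ p q w, w ∈ Epq p q → ∑ j : Fin 5, psi (Sum.inr j) (phi (Sum.inr j) w) = (q : ℂ) • w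

/-- polynomials in `x, y` -/
abbrev R : Type := MvPolynomial Ix ℂ

/-- rational functions in `x, y` -/
abbrev L : Type := FractionRing R

/-- super polynomials -/
abbrev T : Type := R ⊗[ℂ] E

/-- the ring of the model -/
abbrev Lam : Type := L ⊗[ℂ] E

/-- FRD: the derivations `∂/∂y_j` of `L`. -/
def FrdStmt : Prop :=
  ∃ pd : Fin 5 → (L →ₗ[ℂ] L),
    (∀ j a b, pd j (a * b) = pd j a * b + a * pd j b) ∧
    (∀ j (r : R), pd j (algebraMap R L r) = algebraMap R L (MvPolynomial.pderiv (Sum.inr j) r)) ∧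
    (∀ i j a, pd i (pd j a) = pd j (pd i a))

/-- Euler operators on `R` -/
noncomputable def Nx : R →ₗ[ℂ] R :=
  ∑ j : Fin 5, (LinearMap.mulLeft ℂ (MvPolynomial.X (Sum.inl j) : R)) ∘ₗ
    ((MvPolynomial.pderiv (Sum.inl j)).toLinearMap)

/-- Euler operators on `R` -/
noncomputable def Ny : R →ₗ[ℂ] R :=
  ∑ j : Fin 5, (LinearMap.mulLeft ℂ (MvPolynomial.X (Sum.inr j) : R)) ∘ₗ
    ((MvPolynomial.pderiv (Sum.inr j)).toLinearMap)

/-- JOP: inverses of `Nx + c`, `Ny + c` for `c ≥ 1`. -/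
def JopStmt : Prop :=
  ∃ Jx Jy : ℕ → (R →ₗ[ℂ] R),
    (∀ c f, 1 ≤ c → Jx c (Nx f + (c : ℂ) • f) = f) ∧
    (∀ c f, 1 ≤ c → Jy c (Ny f + (c : ℂ) • f) = f) ∧
    (∀ c f j, 1 ≤ c → Jx c (MvPolynomial.X (Sum.inl j) * f) = MvPolynomial.X (Sum.inl j) * Jx (c + 1) f) ∧
    (∀ c f j, 1 ≤ c → Jx c (MvPolynomial.X (Sum.inr j) * f) = MvPolynomial.X (Sum.inr j) * Jx c f) ∧
    (∀ c f j, 1 ≤ c → Jx c (MvPolynomial.pderiv (Sum.inr j) f) = MvPolynomial.pderiv (Sum.inr j) (Jx c f))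

/-! ### Operators on `C ⊗ E` -/

section ops
variable {C : Type} [CommRing C] [Algebra ℂ C]

/-- parity on `C ⊗ E` -/
noncomputable def sS : (C ⊗[ℂ] E) →ₐ[ℂ] (C ⊗[ℂ] E) := Algebra.TensorProduct.map (AlgHom.id ℂ C) sE

/-- the operator `∑_j (f_j ⊗ psi (c j))` -/
noncomputable def opPsi (f : Fin 5 → (C →ₗ[ℂ] C)) (c : Fin 5 → Ix) : (C ⊗[ℂ] E) →ₗ[ℂ] (C ⊗[ℂ] E) :=
  ∑ j : Fin 5, TensorProduct.map (f j) (psi (c j))

/-- the operator `∑_j (f_j ⊗ phi (c j))` -/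
noncomputable def opPhi (f : Fin 5 → (C →ₗ[ℂ] C)) (c : Fin 5 → Ix) : (C ⊗[ℂ] E) →ₗ[ℂ] (C ⊗[ℂ] E) :=
  ∑ j : Fin 5, TensorProduct.map (f j) (phi (c j))

/-- `C ⊗ E_{p,q}` inside `C ⊗ E` -/
noncomputable def TP (C : Type) [CommRing C] [Algebra ℂ C] (p q : ℕ) : Submodule ℂ (C ⊗[ℂ] E) :=
  LinearMap.range (LinearMap.lTensor C (Epq p q).subtype)

end ops

/-- multiplication by `x_j`, `y_j`, and the partial derivatives, on `R` -/
noncomputable def mx (j : Fin 5) : R →ₗ[ℂ] R := LinearMap.mulLeft ℂ (MvPolynomial.X (Sum.inl j) : R)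
/-- multiplication by `y_j` -/
noncomputable def my (j : Fin 5) : R →ₗ[ℂ] R := LinearMap.mulLeft ℂ (MvPolynomial.X (Sum.inr j) : R)
/-- partial derivative in `x_j` -/
noncomputable def px (j : Fin 5) : R →ₗ[ℂ] R := (MvPolynomial.pderiv (Sum.inl j)).toLinearMap
/-- partial derivative in `y_j` -/
noncomputable def py (j : Fin 5) : R →ₗ[ℂ] R := (MvPolynomial.pderiv (Sum.inr j)).toLinearMap

/-- `e ∧ = ∑ x_j dy_j ∧` -/
noncomputable def opE : T →ₗ[ℂ] T := opPsi mx Sum.inr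
/-- `D = ∑ dy_j ∂/∂y_j` -/
noncomputable def opD : T →ₗ[ℂ] T := opPsi py Sum.inr
/-- contraction with the Euler field in `y` -/
noncomputable def opK : T →ₗ[ℂ] T := opPhi my Sum.inr
/-- contraction with the Euler field in `x` -/
noncomputable def opI : T →ₗ[ℂ] T := opPhi mx Sum.inl
/-- `∂^* = ∑ ∂/∂x_j phi_j^y` -/
noncomputable def opS : T →ₗ[ℂ] T := opPhi px Sum.inr
/-- exterior derivative in `x` -/
noncomputable def opDx : T →ₗ[ℂ] T := opPsi px Sum.inl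
/-- `Ny ⊗ 1` -/
noncomputable def opNy : T →ₗ[ℂ] T := LinearMap.rTensor E Ny
/-- `Nx ⊗ 1` -/
noncomputable def opNx : T →ₗ[ℂ] T := LinearMap.rTensor E Nx
/-- multiplication by `ρ = ∑ x_j y_j` -/
noncomputable def rhoR : R := ∑ j : Fin 5, MvPolynomial.X (Sum.inl j) * MvPolynomial.X (Sum.inr j)
/-- multiplication by `ρ` on `T` -/
noncomputable def opRho : T →ₗ[ℂ] T := LinearMap.rTensor E (LinearMap.mulLeft ℂ rhoR)

/-- OPR: the commutation relations on `T`. -/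
structure OprStmt : Prop where
  DD : ∀ t, opD (opD t) = 0
  EE : ∀ t, opE (opE t) = 0
  KK : ∀ t, opK (opK t) = 0
  II : ∀ t, opI (opI t) = 0
  DE : ∀ t, opD (opE t) = -opE (opD t)
  EK : ∀ t, opE (opK t) + opK (opE t) = opRho t
  KS : ∀ t, opK (opS t) = -opS (opK t)
  DI : ∀ t, opD (opI t) = -opI (opD t)
  EI : ∀ t, opE (opI t) = -opI (opE t)
  KI : ∀ t, opK (opI t) = -opI (opK t)
  DxK : ∀ t, opDx (opK t) = -opK (opDx t)
  rho_E : ∀ t, opE (opRho t) = opRho (opE t)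
  rho_K : ∀ t, opK (opRho t) = opRho (opK t)
  rho_I : ∀ t, opI (opRho t) = opRho (opI t)
  D_rho : ∀ t, opD (opRho t) = opE t + opRho (opD t)
  Ny_E : ∀ t, opNy (opE t) = opE (opNy t)
  Ny_D : ∀ t, opNy (opD t) = opD (opNy t) - opD t
  Ny_K : ∀ t, opNy (opK t) = opK (opNy t) + opK t
  Ny_I : ∀ t, opNy (opI t) = opI (opNy t)
  Ny_S : ∀ t, opNy (opS t) = opS (opNy t)
  Ny_Dx : ∀ t, opNy (opDx t) = opDx (opNy t)
  Ny_rho : ∀ t, opNy (opRho t) = opRho (opNy t) + opRho t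
  rho_inj : ∀ t, opRho t = 0 → t = 0

/-- OPB: the homotopy formulas and bidegrees on `T`. -/
structure OpbStmt : Prop where
  DK : ∀ p q t, t ∈ TP R p q → opD (opK t) + opK (opD t) = opNy t + (q : ℂ) • t
  ES : ∀ p q t, t ∈ TP R p q → opE (opS t) + opS (opE t) = opNx t + ((5 : ℂ) - q) • t
  IDx : ∀ p q t, t ∈ TP R p q → opI (opDx t) + opDx (opI t) = opNx t + (p : ℂ) • t
  E_mem : ∀ p q t, t ∈ TP R p q → opE t ∈ TP R p (q + 1)
  D_mem : ∀ p q t, t ∈ TP R p q → opD t ∈ TP R p (q + 1)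
  Dx_mem : ∀ p q t, t ∈ TP R p q → opDx t ∈ TP R (p + 1) q
  K_mem : ∀ p q t, t ∈ TP R p (q + 1) → opK t ∈ TP R p q
  S_mem : ∀ p q t, t ∈ TP R p (q + 1) → opS t ∈ TP R p q
  I_mem : ∀ p q t, t ∈ TP R (p + 1) q → opI t ∈ TP R p q
  K_zero : ∀ p t, t ∈ TP R p 0 → opK t = 0
  S_zero : ∀ p t, t ∈ TP R p 0 → opS t = 0
  I_zero : ∀ q t, t ∈ TP R 0 q → opI t = 0
  r_mem : ∀ p q t (f : R →ₗ[ℂ] R), t ∈ TP R p q → LinearMap.rTensor E f t ∈ TP R p q

/-- TKO: Koszul exactness for `e`, keeping the degree in `y`. -/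
def TkoStmt : Prop :=
  ∀ (p r : ℕ) (m : ℤ) (t : T), r ≤ 3 → t ∈ TP R p (r + 1) → opNy t = (m : ℂ) • t → opE t = 0 →
    ∃ u ∈ TP R p r, opNy u = (m : ℂ) • u ∧ opE u = t ∧ (opK t = 0 → opK u = 0)

/-- TNE: no negative degree in `y`. -/
def TneStmt : Prop := ∀ (m : ℤ) (t : T), m < 0 → opNy t = (m : ℂ) • t → t = 0

/-- TCL: closed primitives for `e`. -/
def TclStmt : Prop :=
  ∀ (p r m : ℕ) (t : T), 1 ≤ r → r ≤ 3 → t ∈ TP R p (r + 1) → opNy t = (m : ℂ) • t →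
    opD t = 0 → opE t = 0 →
    ∃ u ∈ TP R p r, opNy u = (m : ℂ) • u ∧ opD u = 0 ∧ opE u = t

/-- homogeneous basic forms of type `(p,q)` and total `y` degree `k` -/
noncomputable def TK (p q k : ℕ) : Submodule ℂ T :=
  TP R p q ⊓ LinearMap.ker opK ⊓ LinearMap.ker (opNy - ((k : ℂ) - q) • LinearMap.id)

/-- TEX: exactness on the level of `T`. -/
def TexStmt : Prop :=
  ∀ (p q k : ℕ) (g : T), q ≤ 2 → g ∈ TK p (q + 1) k → opRho (opD g) = (k : ℂ) • opE g →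
    (g = 0 ∨ (2 ≤ k ∧ ∃ g1 ∈ TK p q (k - 1),
      (k : ℂ) • g = opRho (opD g1) - ((k : ℂ) - 1) • opE g1))

/-- TZE: closed forms of type `(p,0)`. -/
def TzeStmt : Prop :=
  ∀ (p k : ℕ) (g : T), g ∈ TK p 0 k → opRho (opD g) = (k : ℂ) • opE g →
    ∃ z ∈ TK p 0 0, g = (opRho ^ k) z

/-- TKZ: Koszul exactness for the Euler field in `x` on polynomial forms of type `(2,0)`. -/
def TkzStmt : Prop :=
  ∀ z ∈ TK 2 0 0, opI z = 0 → ∃ u ∈ TK 3 0 0, opI u = z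

/-- TZ0: polynomial forms of type `(0,0)` are polynomials in `x`. -/
def Tz0Stmt : Prop :=
  ∀ z ∈ TK 0 0 0, ∃ f : S, z = (MvPolynomial.rename Sum.inl f : R) ⊗ₜ[ℂ] (1 : E)

/-- TNU: `opI` does not reach units. -/
def TnuStmt : Prop :=
  ∀ (f : S) (b : T), opI b = (MvPolynomial.rename Sum.inl f : R) ⊗ₜ[ℂ] (1 : E) →
    MvPolynomial.constantCoeff f = 0

end Pool.Agent.SkewP4
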